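import Mathlib
import Pool.Agent.H79.HW3

set_option autoImplicit false

open CategoryTheory Abelian TensorProduct Pool.Agent.H79.HW

theorem Pool.Agent.Results.MP_86e60f_al.Fails.result (c : ℕ) (hc : 2 ≤ c) (e : ℕ) :
    ∃ (R : Type) (_ : CommRing R) (_ : IsLocalRing R), IsDomain R ∧ IsHypersurface R ∧
      ∃ M : ModuleCat.{0} R, Module.Finite R M ∧ Module.supportDim R M = e ∧
        IsCMCod R M (c - 1) ∧
        IsCMCod R (M ⊗[R] Ext M (ModuleCat.of R R) (c - 1)) (c - 1) ∧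
        projectiveDimension M = ⊤ := by
  obtain ⟨d, rfl⟩ : ∃ d, c = d + 1 := ⟨c - 1, by omega⟩
  obtain ⟨m, hm⟩ : ∃ m, d + 1 + e = m + 2 := ⟨d + e - 1, by omega⟩
  obtain ⟨hp, h0⟩ := cusp_loc (K := ℚ) m
  set f := yy ℚ (m + 2) 0 ^ 2 - yy ℚ (m + 2) 1 ^ 3 with hf
  have hy : ∀ j < 2, yy ℚ (m + 2) j ∈ IsLocalRing.maximalIdeal _ := fun j hj => by
    rw [yy_max]; exact mem_seg _ (Nat.zero_le _) (by omega)
  have hf2 : f ∈ IsLocalRing.maximalIdeal _ ^ 2 := by
    refine Ideal.sub_mem _ (Ideal.pow_mem_pow (hy 0 (by omega)) 2) ?_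
    rw [pow_succ]
    exact Ideal.mul_mem_right _ _ (Ideal.pow_mem_pow (hy 1 (by omega)) 2)
  have : IsDomain (Localization.AtPrime (org ℚ (m + 2)) ⧸ Ideal.span {f}) :=
    Ideal.Quotient.isDomain _
  have : IsLocalRing (Localization.AtPrime (org ℚ (m + 2)) ⧸ Ideal.span {f}) :=
    IsLocalRing.of_surjective' _ Ideal.Quotient.mk_surjective
  have hg := good_quot (yy ℚ (m + 2)) (m + 2) (by omega) (yy_prime _) (yy_notMem _) (yy_max _) f hf
  have hr : IsRegularRing (MvPolynomial (Fin (m + 2)) ℚ) :=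
    MvPolynomial.isRegularRing_of_isRegularRing ℚ
  refine ⟨Localization.AtPrime (org ℚ (m + 2)) ⧸ Ideal.span {f}, inferInstance, inferInstance,
    inferInstance, ⟨Localization.AtPrime (org ℚ (m + 2)), inferInstance,
    hr.isRegularLocalRing_localization _, f, hf2, ?_, ⟨RingEquiv.refl _⟩⟩,
    ModuleCat.of _ (_ ⧸ seg (fun j => Ideal.Quotient.mk (Ideal.span {f}) (yy ℚ (m + 2) j)) 0
      (d + 1)), inferInstance, (hg.dim (d + 1) e (by omega) hm).2, hg.cm d e (by omega) hm, ?_,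
    hg.pd_top (d + 1) (by omega) (by omega)⟩
  · refine ⟨?_, ?_⟩
    · rw [RingTheory.Sequence.isWeaklyRegular_singleton_iff]
      exact (IsRegular.of_ne_zero h0).left.isSMulRegular
    · intro h
      simp only [Ideal.ofList_singleton, smul_eq_mul, Ideal.mul_top] at h
      exact hp.ne_top h.symm
  · obtain ⟨e1⟩ := hg.tensor d (by omega) (by omega)
    exact isCMCod_congr e1 d (hg.cm d e (by omega) hm)
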